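import Mathlib
import Pool.Agent.N280.QR.Laurent

set_option autoImplicit false

open Filter Topology

namespace Pool.Agent.Results.MP_b13893_an.GoldenRadius

/-- The finite continued fraction `a k - b k / (a (k+1) - b (k+1) / (⋯ / a (k+N)))` in a field. -/
noncomputable def cfrac {K : Type*} [Field K] (a b : ℕ → K) : ℕ → ℕ → K
  | 0, k => a k
  | N + 1, k => a k - b k / cfrac a b N (k + 1)

/-- The sequence `c` of integers `≥ 2` is a negative continued fraction expansion of the real number
`x`: the truncations `c 0 - 1 / (c 1 - 1 / (⋯ - 1 / c N))` converge to `x`. -/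
def IsExpansion (x : ℝ) (c : ℕ → ℕ) : Prop :=
  (∀ j, 2 ≤ c j) ∧
    Tendsto (fun N => cfrac (fun j => (c j : ℝ)) (fun _ => (1 : ℝ)) N 0) atTop (𝓝 x)

/-- The variable `q` of the field `ℚ((q))` of formal Laurent series. -/
noncomputable def q : LaurentSeries ℚ := HahnSeries.single (1 : ℤ) (1 : ℚ)

/-- The `q`-integer `[n]_q = (1 - q^n) / (1 - q)`. -/
noncomputable def qInt (n : ℤ) : LaurentSeries ℚ := (1 - q ^ n) / (1 - q)

/-- `F` is the family `x ↦ [x]_q` of all `q`-deformed real numbers. For `x ≥ 1` with negative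
continued fraction expansion `c`, the series `F x` is the `q`-adic limit (every coefficient is
eventually constant) of the `q`-deformed truncations
`[c 0]_q - q^(c 0 - 1) / ([c 1]_q - q^(c 1 - 1) / (⋯ / [c N]_q))`, and for all real `x` one has
`[x - 1]_q = q⁻¹ ([x]_q - 1)`. -/
structure IsQDeformation (F : ℝ → LaurentSeries ℚ) : Prop where
  limit : ∀ x : ℝ, 1 ≤ x → ∀ c : ℕ → ℕ, IsExpansion x c → ∀ n : ℤ, ∀ᶠ N in atTop,
    (cfrac (fun j => qInt (c j)) (fun j => q ^ (c j - 1)) N 0).coeff n = (F x).coeff n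
  shift : ∀ x : ℝ, F (x - 1) = q⁻¹ * (F x - 1)

/-- The radius of convergence `R(x)`, in `[0, ∞]`, of the complex power series `∑ a_n q^n` over
`n ≥ 0` of a formal Laurent series (the finite principal part does not affect the radius). -/
noncomputable def radiusOfConvergence (A : LaurentSeries ℚ) : ENNReal :=
  (FormalMultilinearSeries.ofScalars ℂ (fun n : ℕ => ((A.coeff (n : ℤ) : ℚ) : ℂ))).radius

lemma cfrac_eq {K : Type*} [Field K] (a b : ℕ → K) (N k : ℕ) :
    cfrac a b N k = Pool.Agent.N280.QR.cf a b N k := by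
  induction N generalizing k with
  | zero => rfl
  | succ N ih => rw [cfrac, Pool.Agent.N280.QR.cf, ih]

open Pool.Agent.N280.QR in
lemma isExpansion_iff (x : ℝ) (c : ℕ → ℕ) : IsExpansion x c ↔ IsExp x c := by
  unfold IsExpansion IsExp
  simp_rw [cfrac_eq]

open Pool.Agent.N280.QR in
theorem result :
    (∀ x : ℝ, 1 ≤ x → ∃! c : ℕ → ℕ, IsExpansion x c) ∧
    (∃! F : ℝ → LaurentSeries ℚ, IsQDeformation F) ∧
    ∀ F : ℝ → LaurentSeries ℚ, IsQDeformation F → ∀ x : ℝ,
      ENNReal.ofReal ((3 - Real.sqrt 5) / 2) ≤ radiusOfConvergence (F x) := by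
  have hlim : ∀ x : ℝ, 1 ≤ x → ∀ n : ℤ, ∀ᶠ N in atTop,
      (cfrac (fun j => qInt (dg x j)) (fun j => q ^ (dg x j - 1)) N 0).coeff n =
        (FF x).coeff n := by
    intro x hx n
    filter_upwards [coeff_conv hx n] with N hN
    rw [FF_of_one_le hx, ← hN, ← cf_eq_toL (two_le_dg hx), cfrac_eq]
    rfl
  have hFF : IsQDeformation FF := by
    refine ⟨?_, FF_shift⟩
    intro x hx c hc n
    rw [isExpansion_iff] at hc
    rw [hc.eq_dg]
    exact hlim x hx n
  have huniq : ∀ F : ℝ → LaurentSeries ℚ, IsQDeformation F → F = FF := by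
    intro F hF
    have h1 : ∀ x : ℝ, 1 ≤ x → F x = FF x := by
      intro x hx
      ext n
      obtain ⟨N, hN1, hN2⟩ := ((hF.limit x hx (dg x)
        ((isExpansion_iff _ _).2 (isExp_dg hx)) n).and (hlim x hx n)).exists
      rw [← hN1, hN2]
    have key : ∀ (m : ℕ) (x : ℝ), 1 ≤ x + m → F x = FF x := by
      intro m
      induction m with
      | zero => intro x hx; exact h1 x (by simpa using hx)
      | succ m ih =>
        intro x hx
        have h2 := ih (x + 1) (by push_cast at hx; linarith)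
        have h3 := hF.shift (x + 1)
        have h4 := FF_shift (x + 1)
        rw [add_sub_cancel_right] at h3 h4
        rw [h3, h4, h2]
        rfl
    funext x
    exact key (sh x) x (le_sh x)
  refine ⟨?_, ⟨FF, hFF, huniq⟩, ?_⟩
  · intro x hx
    refine ⟨dg x, (isExpansion_iff _ _).2 (isExp_dg hx), ?_⟩
    intro c hc
    exact ((isExpansion_iff _ _).1 hc).eq_dg
  · intro F hF x
    rw [huniq F hF]
    exact (good_FF x).rad_ge

end Pool.Agent.Results.MP_b13893_an.GoldenRadius
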